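import Mathlib
import Pool.Agent.H314.LpSec.Conc
import Pool.Agent.H314.LpSec.Sec

/-!
# Log-concavity of sections of rescaled `ℓ_p` balls for `1 ≤ p ≤ 2`
-/

open MeasureTheory Module
open scoped NNReal ENNReal Pointwise

namespace Pool.Agent.Results.MP_fa837f_gt.RangeOneTwo

open Pool.Agent.H314.LpSec

/-- The closed unit ball `B_p^n` of `ℓ_p^n`, as a subset of Euclidean space. -/
def ball (n : ℕ) (p : ℝ) : Set (EuclideanSpace ℝ (Fin n)) :=
  {x | ∑ i, |x i| ^ p ≤ 1}

/-- The diagonal map `D_t = diag (e^{t_1}, …, e^{t_n})`. -/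
noncomputable def D {n : ℕ} (t : Fin n → ℝ) (x : EuclideanSpace ℝ (Fin n)) :
    EuclideanSpace ℝ (Fin n) :=
  WithLp.toLp 2 fun i => Real.exp (t i) * x i

/-- Lebesgue measure on a finite-dimensional real inner product space `E`: the translation
invariant measure giving measure one to the unit cube spanned by an orthonormal basis of `E`. -/
noncomputable def lebesgue (E : Type) [NormedAddCommGroup E] [InnerProductSpace ℝ E]
    [FiniteDimensional ℝ E] [MeasurableSpace E] [BorelSpace E] : Measure E :=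
  (stdOrthonormalBasis ℝ E).toBasis.addHaar

/-- Lebesgue measure on a linear subspace `H` with the Euclidean structure inherited from `ℝⁿ`. -/
noncomputable def vol {n : ℕ} (H : Submodule ℝ (EuclideanSpace ℝ (Fin n))) : Measure H :=
  lebesgue H

/-- The section `D_t B_p^n ∩ H`, as a subset of `H`. -/
def sec (n : ℕ) (p : ℝ) (H : Submodule ℝ (EuclideanSpace ℝ (Fin n))) (t : Fin n → ℝ) : Set H :=
  {x : H | (x : EuclideanSpace ℝ (Fin n)) ∈ D t '' ball n p}

/-- `F_{p,H}(t) = vol_k (D_t B_p^n ∩ H)`. -/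
noncomputable def F (n : ℕ) (p : ℝ) (H : Submodule ℝ (EuclideanSpace ℝ (Fin n)))
    (t : Fin n → ℝ) : ℝ :=
  (vol H).real (sec n p H t)

variable {n : ℕ} {p : ℝ} (H : Submodule ℝ (EuclideanSpace ℝ (Fin n)))

/-- Coordinates restricted to `H`. -/
noncomputable def co (i : Fin n) : H →ₗ[ℝ] ℝ :=
  (EuclideanSpace.proj (𝕜 := ℝ) i).toLinearMap ∘ₗ H.subtype

theorem co_apply (i : Fin n) (x : H) : co H i x = (x : EuclideanSpace ℝ (Fin n)) i := rfl

theorem co_inj (x : H) (h : ∀ i, co H i x = 0) : x = 0 := by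
  apply Subtype.ext
  ext i
  exact h i

/-- The scaled coordinates. -/
noncomputable def cs (t : Fin n → ℝ) (i : Fin n) : H →ₗ[ℝ] ℝ := Real.exp (-(t i)) • co H i

theorem cs_apply (t : Fin n → ℝ) (i : Fin n) (x : H) :
    cs H t i x = Real.exp (-(t i)) * (x : EuclideanSpace ℝ (Fin n)) i := rfl

theorem cs_inj (t : Fin n → ℝ) (x : H) (h : ∀ i, cs H t i x = 0) : x = 0 := by
  apply co_inj
  intro i
  have := h i
  rw [cs_apply] at this
  exact (mul_eq_zero.1 this).resolve_left (Real.exp_pos _).ne'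

/-- Coefficients. -/
noncomputable def bt (p : ℝ) (t : Fin n → ℝ) (i : Fin n) : ℝ≥0 :=
  ⟨Real.exp (-(p * t i)), (Real.exp_pos _).le⟩

theorem bt_congr {t t' : Fin n → ℝ} {i : Fin n} (h : t i = t' i) : bt p t i = bt p t' i := by
  apply NNReal.eq
  show Real.exp _ = Real.exp _
  rw [h]

theorem cs_pow (t : Fin n → ℝ) (i : Fin n) (x : H) :
    |cs H t i x| ^ p = (bt p t i : ℝ) * |co H i x| ^ p := by
  rw [cs_apply, co_apply, abs_mul, Real.mul_rpow (abs_nonneg _) (abs_nonneg _),
    abs_of_pos (Real.exp_pos _), ← Real.exp_mul]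
  congr 1
  show _ = Real.exp _
  congr 1
  ring

theorem set_eq (t : Fin n → ℝ) :
    sec n p H t = {x : H | ∑ i, |cs H t i x| ^ p ≤ 1} := by
  ext x
  simp only [Set.mem_ofPred_eq, Set.mem_image, ball, sec]
  constructor
  · rintro ⟨y, hy, hyx⟩
    have : ∀ i, cs H t i x = y i := by
      intro i
      rw [cs_apply, ← hyx]
      simp only [D]
      rw [← mul_assoc, ← Real.exp_add]
      simp
    simpa only [this] using hy
  · intro h
    refine ⟨WithLp.toLp 2 fun i => cs H t i x, ?_, ?_⟩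
    · simpa using h
    · ext i
      simp only [D, cs_apply]
      rw [← mul_assoc, ← Real.exp_add]
      simp

instance : (vol H).IsAddHaarMeasure := by
  unfold vol lebesgue
  infer_instance

theorem vol_eq (hp : 1 ≤ p) (t : Fin n → ℝ) :
    vol H (sec n p H t) =
      ENNReal.ofReal (GE (vol H) (co H) p (bt p t) / Real.Gamma (finrank ℝ H / p + 1)) := by
  rw [set_eq, vol_le_one (vol H) (cs H t) (cs_inj H t) hp]
  simp only [cs_pow]
  rfl

theorem GE_pos (hp : 1 ≤ p) (t : Fin n → ℝ) : 0 < GE (vol H) (co H) p (bt p t) := by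
  have := int_pos (vol H) (cs H t) (cs_inj H t) hp
  simp only [cs_pow] at this
  exact this

theorem F_eq (hp : 1 ≤ p) (t : Fin n → ℝ) :
    F n p H t = GE (vol H) (co H) p (bt p t) / Real.Gamma (finrank ℝ H / p + 1) := by
  unfold F Measure.real
  rw [vol_eq H hp, ENNReal.toReal_ofReal]
  have hG : 0 < Real.Gamma (finrank ℝ H / p + 1) := Real.Gamma_pos_of_pos (by positivity)
  exact (div_pos (GE_pos H hp t) hG).le

theorem F_pos (hp : 1 ≤ p) (t : Fin n → ℝ) : 0 < F n p H t := by
  rw [F_eq H hp]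
  have hG : 0 < Real.Gamma (finrank ℝ H / p + 1) := Real.Gamma_pos_of_pos (by positivity)
  exact div_pos (GE_pos H hp t) hG

theorem F_sup (hp : 1 ≤ p) (hp2 : p ≤ 2) (t δ η : Fin n → ℝ) (hδ : 0 ≤ δ) (hη : 0 ≤ η)
    (hd : ∀ i, δ i = 0 ∨ η i = 0) :
    F n p H (t + δ) * F n p H (t + η) ≤ F n p H t * F n p H (t + δ + η) := by
  have hG : 0 < Real.Gamma (finrank ℝ H / p + 1) := Real.Gamma_pos_of_pos (by positivity)
  have hp0 : 0 < p := by linarith
  simp only [F_eq H hp]
  rw [div_mul_div_comm, div_mul_div_comm]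
  refine div_le_div_of_nonneg_right ?_ (mul_pos hG hG).le
  obtain ⟨c, V, hc, hV, hGE⟩ := GE_eq_G0 (vol H) (co H)
  have hmono : ∀ {s s' : Fin n → ℝ}, s ≤ s' → bt p s' ≤ bt p s := by
    intro s s' hs i
    show Real.exp _ ≤ Real.exp _
    rw [Real.exp_le_exp]
    have := hs i
    nlinarith
  have h1 : bt p (t + δ + η) ≤ bt p (t + δ) := hmono (le_add_of_nonneg_right hη)
  have h2 : bt p (t + δ + η) ≤ bt p (t + η) := hmono (by
    rw [add_right_comm]
    exact le_add_of_nonneg_right hδ)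
  have e1 : bt p (t + δ + η) + (bt p (t + δ) - bt p (t + δ + η)) = bt p (t + δ) :=
    add_tsub_cancel_of_le h1
  have e2 : bt p (t + δ + η) + (bt p (t + η) - bt p (t + δ + η)) = bt p (t + η) :=
    add_tsub_cancel_of_le h2
  have e3 : bt p (t + δ + η) + (bt p (t + δ) - bt p (t + δ + η)) +
      (bt p (t + η) - bt p (t + δ + η)) = bt p t := by
    rw [e1]
    funext i
    simp only [Pi.add_apply, Pi.sub_apply]
    rcases hd i with h | h
    · have a1 : bt p (t + δ) i = bt p t i := bt_congr (by simp [h])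
      have a2 : bt p (t + η) i = bt p (t + δ + η) i := bt_congr (by simp [h])
      rw [a1, a2, tsub_self, add_zero]
    · have a1 : bt p (t + δ + η) i = bt p (t + δ) i := bt_congr (by simp [h])
      have a2 : bt p (t + η) i = bt p t i := bt_congr (by simp [h])
      rw [a1, a2, add_tsub_cancel_of_le]
      exact hmono (le_add_of_nonneg_right hδ) i
  have key := G0_ineq V (hV (co_inj H)) hp hp2 (bt p (t + δ + η))
    (bt p (t + δ) - bt p (t + δ + η)) (bt p (t + η) - bt p (t + δ + η))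
    (fun i => by
      show (0 : ℝ) < Real.exp _
      exact Real.exp_pos _)
  rw [e3, e1, e2] at key
  rw [hGE, hGE, hGE, hGE]
  nlinarith [mul_nonneg hc hc]

theorem F_trans (t : Fin n → ℝ) (c : ℝ) :
    F n p H (t + fun _ => c) = Real.exp (c * finrank ℝ H) * F n p H t := by
  have hset : sec n p H (t + fun _ => c) = Real.exp c • sec n p H t := by
    rw [set_eq, set_eq]
    ext x
    rw [Set.mem_smul_set_iff_inv_smul_mem₀ (Real.exp_pos c).ne']
    simp only [Set.mem_ofPred_eq, cs_apply, Pi.add_apply]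
    have : ∀ i, Real.exp (-(t i + c)) * (x : EuclideanSpace ℝ (Fin n)) i =
        Real.exp (-(t i)) * (((Real.exp c)⁻¹ • x : H) : EuclideanSpace ℝ (Fin n)) i := by
      intro i
      rw [neg_add, Real.exp_add, Real.exp_neg c]
      simp [mul_assoc]
    simp only [this]
  unfold F Measure.real
  rw [hset, Measure.addHaar_smul, ENNReal.toReal_mul, ENNReal.toReal_ofReal (abs_nonneg _),
    abs_of_pos (pow_pos (Real.exp_pos c) _), ← Real.exp_nat_mul, mul_comm c]

theorem F_mono (hp : 1 ≤ p) : Monotone (F n p H) := by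
  intro s t hst
  unfold F Measure.real
  refine ENNReal.toReal_mono ?_ ?_
  · rw [vol_eq H hp]
    exact ENNReal.ofReal_ne_top
  · apply measure_mono
    rw [set_eq, set_eq]
    intro x hx
    simp only [Set.mem_ofPred_eq] at hx ⊢
    refine le_trans (Finset.sum_le_sum fun i _ => ?_) hx
    refine Real.rpow_le_rpow (abs_nonneg _) ?_ (by linarith)
    rw [cs_apply, cs_apply, abs_mul, abs_mul, abs_of_pos (Real.exp_pos _),
      abs_of_pos (Real.exp_pos _)]
    refine mul_le_mul_of_nonneg_right ?_ (abs_nonneg _)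
    rw [Real.exp_le_exp]
    linarith [hst i]

theorem concave (hp : 1 ≤ p) (hp2 : p ≤ 2) :
    ConcaveOn ℝ Set.univ (fun t => Real.log (F n p H t)) := by
  refine concaveOn_of_supermodular _ (finrank ℝ H : ℝ) ?_ ?_ ?_
  · intro t c
    rw [F_trans H, Real.log_mul (Real.exp_pos _).ne' (F_pos H hp t).ne', Real.log_exp]
    ring
  · intro t δ η hδ hη hd
    rw [← Real.log_mul (F_pos H hp _).ne' (F_pos H hp _).ne',
      ← Real.log_mul (F_pos H hp _).ne' (F_pos H hp _).ne']
    exact Real.log_le_log (mul_pos (F_pos H hp _) (F_pos H hp _)) (F_sup H hp hp2 t δ η hδ hη hd)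
  · intro s t hst
    exact Real.log_le_log (F_pos H hp s) (F_mono H hp hst)

/-- Log-concavity of a function on `ℝⁿ`. -/
def IsLogConcave {n : ℕ} (G : (Fin n → ℝ) → ℝ) : Prop :=
  ∀ (s t : Fin n → ℝ) (l : ℝ), 0 ≤ l → l ≤ 1 → G s ^ l * G t ^ (1 - l) ≤ G (l • s + (1 - l) • t)

/-- Log-supermodularity of a function on `ℝⁿ` (with the coordinatewise order). -/
def IsLogSupermodular {n : ℕ} (G : (Fin n → ℝ) → ℝ) : Prop :=
  ∀ s t : Fin n → ℝ, G s * G t ≤ G (s ⊓ t) * G (s ⊔ t)

/-- For `1 ≤ p ≤ 2`, every `n` and every linear subspace `H` of `ℝⁿ`, the function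
`F_{p,H}(t) = vol_k (D_t B_p^n ∩ H)` is positive, log-concave and log-supermodular on `ℝⁿ`. -/
theorem result (n : ℕ) (p : ℝ) (hp : 1 ≤ p) (hp2 : p ≤ 2)
    (H : Submodule ℝ (EuclideanSpace ℝ (Fin n))) :
    (∀ t, 0 < F n p H t) ∧ IsLogConcave (F n p H) ∧ IsLogSupermodular (F n p H) := by
  refine ⟨F_pos H hp, ?_, ?_⟩
  · intro s t l h0 h1
    have hc := (concave H hp hp2).2 (Set.mem_univ s) (Set.mem_univ t) h0 (sub_nonneg.2 h1)
      (by ring)
    simp only [smul_eq_mul] at hc
    rw [Real.rpow_def_of_pos (F_pos H hp s), Real.rpow_def_of_pos (F_pos H hp t), ← Real.exp_add,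
      ← Real.le_log_iff_exp_le (F_pos H hp _)]
    linarith
  · intro s t
    have := F_sup H hp hp2 (s ⊓ t) (s - s ⊓ t) (t - s ⊓ t) (sub_nonneg.2 inf_le_left)
      (sub_nonneg.2 inf_le_right) (fun i => by
        simp only [Pi.sub_apply, Pi.inf_apply]
        rcases le_total (s i) (t i) with h | h
        · left; rw [inf_of_le_left h]; ring
        · right; rw [inf_of_le_right h]; ring)
    have e1 : s ⊓ t + (s - s ⊓ t) = s := by abel
    have e2 : s ⊓ t + (t - s ⊓ t) = t := by abel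
    have e3 : s + (t - s ⊓ t) = s ⊔ t := by
      have := inf_add_sup s t
      rw [← add_sub_assoc, ← this]
      abel
    rwa [e1, e2, e3] at this

end Pool.Agent.Results.MP_fa837f_gt.RangeOneTwo
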